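import Mathlib

open scoped MatrixOrder Matrix ComplexOrder

namespace Pool.Agent.Results.MP_ebd556_mp.TraceIneq

/-- The real part of the trace of a square complex matrix. -/
noncomputable def tr {d : ℕ} (X : Matrix (Fin d) (Fin d) ℂ) : ℝ := X.trace.re

/-- The trace norm `Tr √(X* X)`, with `√` the positive semidefinite square root. -/
noncomputable def traceNorm {d : ℕ} (X : Matrix (Fin d) (Fin d) ℂ) : ℝ :=
  tr (CFC.sqrt (Xᴴ * X))

/-- `L(A_1,…,A_n) = Tr √(∑ A_j²) - ∑ Tr A_j`. -/
noncomputable def L {n d : ℕ} (A : Fin n → Matrix (Fin d) (Fin d) ℂ) : ℝ :=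
  tr (CFC.sqrt (∑ j, A j * A j)) - ∑ j, tr (A j)

/-- `R(A_1,…,A_n) = ∑_{j<k} (‖A_j - A_k‖₁ - Tr (A_j + A_k))`. -/
noncomputable def R {n d : ℕ} (A : Fin n → Matrix (Fin d) (Fin d) ℂ) : ℝ :=
  ∑ p ∈ Finset.univ.filter (fun p : Fin n × Fin n => p.1 < p.2),
    (traceNorm (A p.1 - A p.2) - tr (A p.1 + A p.2))

section basics

variable {d : ℕ}

lemma tr_add (X Y : Matrix (Fin d) (Fin d) ℂ) : tr (X + Y) = tr X + tr Y := by
  simp [tr, Matrix.trace_add]

lemma tr_sub (X Y : Matrix (Fin d) (Fin d) ℂ) : tr (X - Y) = tr X - tr Y := by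
  simp [tr, Matrix.trace_sub]

lemma tr_smul (c : ℝ) (X : Matrix (Fin d) (Fin d) ℂ) : tr (c • X) = c * tr X := by
  simp [tr, Matrix.trace_smul]

lemma tr_sum {ι : Type*} (s : Finset ι) (f : ι → Matrix (Fin d) (Fin d) ℂ) :
    tr (∑ i ∈ s, f i) = ∑ i ∈ s, tr (f i) := by
  simp [tr, Matrix.trace_sum]

lemma tr_mul_comm (X Y : Matrix (Fin d) (Fin d) ℂ) : tr (X * Y) = tr (Y * X) := by
  simp [tr, Matrix.trace_mul_comm X Y]

lemma tr_conj (X : Matrix (Fin d) (Fin d) ℂ) : tr Xᴴ = tr X := by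
  simp [tr, Matrix.trace_conjTranspose]

lemma tr_nonneg {X : Matrix (Fin d) (Fin d) ℂ} (h : X.PosSemidef) : 0 ≤ tr X := by
  have := h.trace_nonneg
  exact (Complex.nonneg_iff.mp this).1

/-- Sandwich positivity. -/
lemma tr_sandwich {S : Matrix (Fin d) (Fin d) ℂ} (h : S.PosSemidef)
    (W : Matrix (Fin d) (Fin d) ℂ) : 0 ≤ tr (Wᴴ * S * W) :=
  tr_nonneg (h.conjTranspose_mul_mul_same W)

end basics

section functional

variable {d : ℕ}

lemma cont_spec {H : Matrix (Fin d) (Fin d) ℂ} (f : ℝ → ℝ) :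
    ContinuousOn f (spectrum ℝ H) := by
  have : (spectrum ℝ H).Finite := Matrix.finite_real_spectrum
  exact this.continuousOn f

/-- The spectral projection of a Hermitian matrix onto the nonnegative part. -/
lemma exists_sign {H : Matrix (Fin d) (Fin d) ℂ} (hH : H.IsHermitian) :
    ∃ T : Matrix (Fin d) (Fin d) ℂ, Tᴴ = T ∧ T * T = T ∧
      traceNorm H = tr ((T + T - 1) * H) := by
  have hsa : IsSelfAdjoint H := hH
  refine ⟨cfc (fun x : ℝ => if 0 ≤ x then (1:ℝ) else 0) H, ?_, ?_, ?_⟩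
  · exact (cfc_predicate (R := ℝ) (fun x : ℝ => if 0 ≤ x then (1:ℝ) else 0) H)
  · rw [← cfc_mul _ _ H (cont_spec _) (cont_spec _)]
    congr 1
    ext x
    split_ifs <;> simp
  · have habs : CFC.sqrt (Hᴴ * H) = cfc (fun x : ℝ => |x|) H := by
      apply CFC.sqrt_unique
      · rw [← cfc_mul _ _ H (cont_spec _) (cont_spec _)]
        have h2 : (fun x : ℝ => |x| * |x|) = fun x => x * x := by
          ext x; exact abs_mul_abs_self x
        rw [h2, cfc_mul _ _ H (cont_spec _) (cont_spec _), cfc_id' ℝ H, hH.eq]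
      · exact cfc_nonneg (fun x _ => abs_nonneg x)
    unfold traceNorm
    rw [habs]
    have h1 : (1 : Matrix (Fin d) (Fin d) ℂ) = cfc (fun _ : ℝ => (1:ℝ)) H := (cfc_const_one ℝ H).symm
    have h3 : (cfc (fun x : ℝ => if 0 ≤ x then (1:ℝ) else 0) H +
        cfc (fun x : ℝ => if 0 ≤ x then (1:ℝ) else 0) H - 1) * H = cfc (fun x : ℝ => |x|) H := by
      conv_lhs => rw [h1, ← cfc_add H _ _ (cont_spec _) (cont_spec _),
        ← cfc_sub _ _ H (cont_spec _) (cont_spec _)]
      conv_lhs => enter [2]; rw [← cfc_id' ℝ H]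
      rw [← cfc_mul _ _ H (cont_spec _) (cont_spec _)]
      congr 1
      ext x
      split_ifs with h
      · rw [abs_of_nonneg h]; ring
      · rw [abs_of_neg (not_le.mp h)]; ring
    rw [h3]

/-- The Moore-Penrose inverse of a positive semidefinite matrix. -/
lemma exists_pinv {S : Matrix (Fin d) (Fin d) ℂ} (hS : S.PosSemidef) :
    ∃ P : Matrix (Fin d) (Fin d) ℂ, Pᴴ = P ∧ S * P = P * S ∧ S * P * S = S ∧
      P * S * P = P := by
  have hsa : IsSelfAdjoint S := hS.1
  have key : ∀ f : ℝ → ℝ, S * cfc f S = cfc (fun x => x * f x) S := by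
    intro f
    rw [cfc_mul _ _ S (cont_spec _) (cont_spec _), cfc_id' ℝ S]
  have key' : ∀ f : ℝ → ℝ, cfc f S * S = cfc (fun x => f x * x) S := by
    intro f
    rw [cfc_mul _ _ S (cont_spec _) (cont_spec _), cfc_id' ℝ S]
  refine ⟨cfc (fun x : ℝ => x⁻¹) S, ?_, ?_, ?_, ?_⟩
  · exact (cfc_predicate (R := ℝ) (fun x : ℝ => x⁻¹) S)
  · rw [key, key']
    congr 1
    ext x
    ring
  · rw [key, key']
    have : (fun x : ℝ => x * x⁻¹ * x) = fun x => x := by
      ext x
      by_cases h : x = 0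
      · simp [h]
      · field_simp
    rw [this, cfc_id' ℝ S]
  · rw [key', ← cfc_mul _ _ S (cont_spec _) (cont_spec _)]
    congr 1
    ext x
    by_cases h : x = 0
    · simp [h]
    · field_simp

end functional

section pair

variable {d : ℕ}

/-- One half of the two-operator estimate. -/
lemma half_ineq {A X V : Matrix (Fin d) (Fin d) ℂ} (hA : A.PosSemidef)
    (hX : Xᴴ = X) (hXX : X * X = X) :
    tr (X * (A * V)) - (1/4) * tr (Vᴴ * A * V) ≤ tr (A * X) := by
  have h := tr_sandwich hA (X - (1/2 : ℝ) • V)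
  have hAh : Aᴴ = A := hA.1
  have e1 : (X - (1/2 : ℝ) • V)ᴴ * A * (X - (1/2 : ℝ) • V)
      = X * A * X - (1/2 : ℝ) • (X * (A * V)) - (1/2 : ℝ) • (Vᴴ * A * X)
        + (1/4 : ℝ) • (Vᴴ * A * V) := by
    rw [Matrix.conjTranspose_sub, Matrix.conjTranspose_smul, hX]
    simp only [sub_mul, mul_sub, smul_mul_assoc, mul_smul_comm, Matrix.mul_assoc, star_trivial,
      smul_sub, smul_smul]
    norm_num
    abel
  rw [e1, tr_add, tr_sub, tr_sub, tr_smul, tr_smul, tr_smul] at h
  have e2 : tr (X * A * X) = tr (A * X) := by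
    rw [Matrix.mul_assoc, tr_mul_comm, Matrix.mul_assoc, hXX]
  have e3 : tr (Vᴴ * A * X) = tr (X * (A * V)) := by
    rw [← tr_conj (Vᴴ * A * X)]
    congr 1
    rw [Matrix.conjTranspose_mul, Matrix.conjTranspose_mul, Matrix.conjTranspose_conjTranspose,
      hX, hAh]
  rw [e2, e3] at h
  linarith

/-- The two-operator estimate, with `A = S V_A` and `B = S V_B`. -/
lemma pair_ineq {A B S VA VB T : Matrix (Fin d) (Fin d) ℂ} (hA : A.PosSemidef)
    (hB : B.PosSemidef) (hS : Sᴴ = S) (hVA : S * VA = A) (hVB : S * VB = B)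
    (hT : Tᴴ = T) (hTT : T * T = T) :
    tr (A * VB) - (1/4) * tr (VBᴴ * A * VB) - (1/4) * tr (VAᴴ * B * VA)
      ≤ tr (A * (1 - T)) + tr (B * T) := by
  have h1 := half_ineq (X := 1 - T) (V := VB) hA (by simp [hT])
    (by rw [mul_sub, sub_mul, sub_mul, hTT]; simp)
  have h2 := half_ineq (X := T) (V := VA) hB hT hTT
  have hAh : Aᴴ = A := hA.1
  have hBh : Bᴴ = B := hB.1
  have hA' : VAᴴ * S = A := by
    rw [← hAh, ← hVA, Matrix.conjTranspose_mul, hS]
  have hB' : VBᴴ * S = B := by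
    rw [← hBh, ← hVB, Matrix.conjTranspose_mul, hS]
  have e1 : (B * VA)ᴴ = A * VB := by
    rw [Matrix.conjTranspose_mul, hBh]
    conv_lhs => rw [← hVB]
    rw [← Matrix.mul_assoc, hA']
  have e2 : tr (T * (B * VA)) = tr (T * (A * VB)) := by
    rw [← tr_conj, Matrix.conjTranspose_mul, e1, hT, tr_mul_comm]
  rw [e2] at h2
  have e3 : tr ((1 - T) * (A * VB)) = tr (A * VB) - tr (T * (A * VB)) := by
    rw [sub_mul, tr_sub, one_mul]
  rw [e3] at h1
  linarith

/-- Symmetry of the cross term. -/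
lemma cross_symm {A B S VA VB : Matrix (Fin d) (Fin d) ℂ} (hA : A.PosSemidef)
    (hB : B.PosSemidef) (hS : Sᴴ = S) (hVA : S * VA = A) (hVB : S * VB = B) :
    tr (A * VB) = tr (B * VA) := by
  have hAh : Aᴴ = A := hA.1
  have hBh : Bᴴ = B := hB.1
  have hA' : VAᴴ * S = A := by
    rw [← hAh, ← hVA, Matrix.conjTranspose_mul, hS]
  have e1 : (B * VA)ᴴ = A * VB := by
    rw [Matrix.conjTranspose_mul, hBh]
    conv_lhs => rw [← hVB]
    rw [← Matrix.mul_assoc, hA']
  rw [← e1, tr_conj]

end pair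

section main

variable {n d : ℕ}

/-- Splitting a double sum into its diagonal and its off-diagonal part. -/
lemma double_sum (g : Fin n → Fin n → ℝ) :
    ∑ p ∈ Finset.univ.filter (fun p : Fin n × Fin n => p.1 < p.2), (g p.1 p.2 + g p.2 p.1)
      = (∑ j, ∑ k, g j k) - ∑ j, g j j := by
  have h1 : ∀ j k : Fin n, g j k = (if j < k then g j k else 0) + (if k < j then g j k else 0)
      + (if j = k then g j k else 0) := by
    intro j k
    rcases lt_trichotomy j k with h | h | h
    · simp [h, h.ne, h.not_gt]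
    · subst h; simp
    · simp [h, h.ne', h.not_gt]
  have h2 : (∑ j, ∑ k, g j k) = (∑ j, ∑ k, (if j < k then g j k else 0))
      + (∑ j, ∑ k, (if k < j then g j k else 0)) + ∑ j, g j j := by
    have : ∑ j : Fin n, g j j = ∑ j : Fin n, ∑ k : Fin n, (if j = k then g j k else 0) := by
      simp
    rw [this, ← Finset.sum_add_distrib, ← Finset.sum_add_distrib]
    refine Finset.sum_congr rfl fun j _ => ?_
    rw [← Finset.sum_add_distrib, ← Finset.sum_add_distrib]
    exact Finset.sum_congr rfl fun k _ => h1 j k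
  have h3 : (∑ j, ∑ k, (if k < j then g j k else 0))
      = ∑ j, ∑ k, (if j < k then g k j else 0) := Finset.sum_comm
  rw [Finset.sum_filter, Fintype.sum_prod_type, h2, h3]
  rw [add_sub_cancel_right, ← Finset.sum_add_distrib]
  refine Finset.sum_congr rfl fun j _ => ?_
  rw [← Finset.sum_add_distrib]
  refine Finset.sum_congr rfl fun k _ => ?_
  split_ifs <;> simp

theorem result (n d : ℕ) (A : Fin n → Matrix (Fin d) (Fin d) ℂ)
    (hA : ∀ j, (A j).PosSemidef) : R A ≤ L A := by
  classical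
  set Q : Matrix (Fin d) (Fin d) ℂ := ∑ j, A j * A j with hQ
  have hAh : ∀ j, (A j)ᴴ = A j := fun j => (hA j).1
  have hQpsd : Q.PosSemidef := by
    rw [hQ]
    refine Matrix.posSemidef_sum _ fun j _ => ?_
    have := Matrix.posSemidef_conjTranspose_mul_self (A j)
    rwa [hAh j] at this
  set S : Matrix (Fin d) (Fin d) ℂ := CFC.sqrt Q with hSdef
  have hSpsd : S.PosSemidef := Matrix.nonneg_iff_posSemidef.mp (CFC.sqrt_nonneg Q)
  have hSh : Sᴴ = S := hSpsd.1
  have hSS : S * S = Q := CFC.sqrt_mul_sqrt_self Q hQpsd.nonneg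
  obtain ⟨P, hPh, hcomm, hSPS, hPSP⟩ := exists_pinv hSpsd
  -- `E = P S` is the projection onto the range of `S`
  set V : Fin n → Matrix (Fin d) (Fin d) ℂ := fun j => P * A j with hV
  have hF : ∀ j, A j * (1 - P * S) = 0 := by
    have hzero : ∑ j, tr ((A j * (1 - P * S))ᴴ * (A j * (1 - P * S))) = 0 := by
      rw [← tr_sum]
      have : ∑ j, (A j * (1 - P * S))ᴴ * (A j * (1 - P * S))
          = (1 - P * S)ᴴ * Q * (1 - P * S) := by
        rw [hQ, Finset.mul_sum, Finset.sum_mul]
        refine Finset.sum_congr rfl fun j _ => ?_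
        rw [Matrix.conjTranspose_mul, hAh j]
        simp only [Matrix.mul_assoc]
      rw [this, ← hSS]
      have h0 : S * (1 - P * S) = 0 := by
        rw [mul_sub, mul_one, ← Matrix.mul_assoc, hSPS, sub_self]
      have : (1 - P * S)ᴴ * (S * S) * (1 - P * S) = 0 := by
        rw [Matrix.mul_assoc, Matrix.mul_assoc, h0, mul_zero, mul_zero]
      rw [this]
      simp [tr]
    have hnn : ∀ j ∈ Finset.univ, 0 ≤ tr ((A j * (1 - P * S))ᴴ * (A j * (1 - P * S))) :=
      fun j _ => tr_nonneg (Matrix.posSemidef_conjTranspose_mul_self _)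
    intro j
    have h0 := (Finset.sum_eq_zero_iff_of_nonneg hnn).mp hzero j (Finset.mem_univ j)
    rw [← Matrix.trace_conjTranspose_mul_self_eq_zero_iff]
    have hps := Matrix.posSemidef_conjTranspose_mul_self (A j * (1 - P * S))
    have him := (Complex.nonneg_iff.mp hps.trace_nonneg).2
    apply Complex.ext
    · simpa [tr] using h0
    · simpa using him.symm
  have hAE : ∀ j, A j * (P * S) = A j := by
    intro j
    have := hF j
    rw [mul_sub, mul_one, sub_eq_zero] at this
    exact this.symm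
  have hEA : ∀ j, S * (P * A j) = A j := by
    intro j
    have := congrArg Matrix.conjTranspose (hAE j)
    rw [Matrix.conjTranspose_mul, Matrix.conjTranspose_mul, hSh, hPh, hAh j,
      Matrix.mul_assoc] at this
    exact this
  have hSV : ∀ j, S * V j = A j := hEA
  -- `Π = ∑ V_j V_jᴴ = P S`
  have hPi : ∑ j, V j * (V j)ᴴ = P * S := by
    have : ∑ j, V j * (V j)ᴴ = P * Q * P := by
      rw [hQ, Finset.mul_sum, Finset.sum_mul]
      refine Finset.sum_congr rfl fun j _ => ?_
      simp only [hV, Matrix.conjTranspose_mul, hAh j, hPh, Matrix.mul_assoc]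
    rw [this, ← hSS]
    calc P * (S * S) * P = (P * S) * (S * P) := by simp only [Matrix.mul_assoc]
      _ = (P * S) * (P * S) := by rw [hcomm]
      _ = (P * S * P) * S := by simp only [Matrix.mul_assoc]
      _ = P * S := by rw [hPSP]
  set M : Matrix (Fin d) (Fin d) ℂ := ∑ j, A j with hM
  set VM : Matrix (Fin d) (Fin d) ℂ := ∑ j, V j with hVM
  have hSVM : S * VM = M := by
    rw [hVM, hM, Finset.mul_sum]
    exact Finset.sum_congr rfl fun j _ => hSV j
  have hVS : ∀ j, (V j)ᴴ * S = A j := by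
    intro j
    have := congrArg Matrix.conjTranspose (hSV j)
    rwa [Matrix.conjTranspose_mul, hSh, hAh j] at this
  -- the function `g`
  set g : Fin n → Fin n → ℝ := fun j k =>
    tr (A j * V k) - (1/2) * tr ((V k)ᴴ * A j * V k) with hg
  -- diagonal terms
  have hdiag1 : ∑ j, tr (A j * V j) = tr S := by
    have : ∀ j, tr (A j * V j) = tr (S * (V j * (V j)ᴴ)) := by
      intro j
      calc tr (A j * V j) = tr ((V j)ᴴ * S * V j) := by rw [hVS j]
        _ = tr ((V j)ᴴ * (S * V j)) := by rw [Matrix.mul_assoc]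
        _ = tr (S * V j * (V j)ᴴ) := tr_mul_comm _ _
        _ = tr (S * (V j * (V j)ᴴ)) := by rw [Matrix.mul_assoc]
    rw [Finset.sum_congr rfl fun j _ => this j, ← tr_sum, ← Finset.mul_sum, hPi,
      ← Matrix.mul_assoc, hSPS]
  have hdiag2 : 2 * tr S - tr M ≤ ∑ j, tr ((V j)ᴴ * A j * V j) := by
    have hj : ∀ j, 2 * tr (A j * V j) - tr (A j) ≤ tr ((V j)ᴴ * A j * V j) := by
      intro j
      have h := tr_sandwich (hA j) (1 - V j)
      have e : (1 - V j)ᴴ * A j * (1 - V j)
          = A j - A j * V j - (V j)ᴴ * A j + (V j)ᴴ * A j * V j := by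
        rw [Matrix.conjTranspose_sub, Matrix.conjTranspose_one]
        noncomm_ring
      rw [e, tr_add, tr_sub, tr_sub] at h
      have e2 : tr ((V j)ᴴ * A j) = tr (A j * V j) := by
        rw [← tr_conj ((V j)ᴴ * A j), Matrix.conjTranspose_mul,
          Matrix.conjTranspose_conjTranspose, hAh j]
      rw [e2] at h
      linarith
    have := Finset.sum_le_sum fun j (_ : j ∈ Finset.univ) => hj j
    rw [Finset.sum_sub_distrib, ← Finset.mul_sum, hdiag1, ← tr_sum] at this
    exact this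
  -- full sums
  have hfull1 : ∑ j, ∑ k, tr (A j * V k) = tr (M * VM) := by
    rw [hM, hVM, Finset.sum_mul, tr_sum]
    refine Finset.sum_congr rfl fun j _ => ?_
    rw [Finset.mul_sum, tr_sum]
  have hfull1' : 2 * tr M - tr S ≤ tr (M * VM) := by
    have h := tr_sandwich hSpsd (1 - VM)
    have e : (1 - VM)ᴴ * S * (1 - VM) = S - S * VM - VMᴴ * S + VMᴴ * S * VM := by
      rw [Matrix.conjTranspose_sub, Matrix.conjTranspose_one]
      noncomm_ring
    rw [e, tr_add, tr_sub, tr_sub, hSVM] at h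
    have hMh : Mᴴ = M := by
      rw [hM, Matrix.conjTranspose_sum]
      exact Finset.sum_congr rfl fun j _ => hAh j
    have e2 : VMᴴ * S = M := by
      have := congrArg Matrix.conjTranspose hSVM
      rwa [Matrix.conjTranspose_mul, hSh, hMh] at this
    rw [e2] at h
    linarith
  have hfull2 : ∑ j, ∑ k, tr ((V k)ᴴ * A j * V k) = tr M := by
    have : ∀ j, ∑ k, tr ((V k)ᴴ * A j * V k) = tr (A j) := by
      intro j
      have h1 : ∀ k, tr ((V k)ᴴ * A j * V k) = tr (A j * (V k * (V k)ᴴ)) := by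
        intro k
        rw [Matrix.mul_assoc, tr_mul_comm, Matrix.mul_assoc]
      rw [Finset.sum_congr rfl fun k _ => h1 k, ← tr_sum, ← Finset.mul_sum, hPi, hAE j]
    rw [Finset.sum_congr rfl fun j _ => this j, ← tr_sum]
  have hgsum : tr M - tr S ≤ (∑ j, ∑ k, g j k) - ∑ j, g j j := by
    have e1 : ∑ j, ∑ k, g j k = tr (M * VM) - (1/2) * tr M := by
      simp only [hg, Finset.sum_sub_distrib, ← Finset.mul_sum, hfull1, hfull2]
    have e2 : ∑ j, g j j = tr S - (1/2) * ∑ j, tr ((V j)ᴴ * A j * V j) := by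
      simp only [hg, Finset.sum_sub_distrib, ← Finset.mul_sum, hdiag1]
    rw [e1, e2]
    linarith
  -- pairwise bound
  have hpair : ∀ p : Fin n × Fin n,
      traceNorm (A p.1 - A p.2) - tr (A p.1 + A p.2) ≤ -(g p.1 p.2 + g p.2 p.1) := by
    rintro ⟨j, k⟩
    have hH : (A j - A k).IsHermitian := by
      unfold Matrix.IsHermitian
      rw [Matrix.conjTranspose_sub, hAh, hAh]
    obtain ⟨T, hT, hTT, hTn⟩ := exists_sign hH
    have h := pair_ineq (hA j) (hA k) hSh (hSV j) (hSV k) hT hTT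
    have hc := cross_symm (hA j) (hA k) hSh (hSV j) (hSV k)
    have e : tr ((T + T - 1) * (A j - A k)) = tr (A j) + tr (A k)
        - 2 * (tr (A j * (1 - T)) + tr (A k * T)) := by
      have e1 : tr ((T + T - 1) * (A j - A k))
          = 2 * tr (T * A j) - tr (A j) - 2 * tr (T * A k) + tr (A k) := by
        have : (T + T - 1) * (A j - A k)
            = T * A j + T * A j - A j - (T * A k + T * A k) + A k := by noncomm_ring
        rw [this]
        simp only [tr_add, tr_sub]
        ring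
      rw [e1, mul_sub, mul_one, tr_sub, tr_mul_comm (A j) T, tr_mul_comm (A k) T]
      ring
    simp only [hg]
    rw [hTn, e, tr_add]
    linarith
  have hR : R A ≤ -((∑ j, ∑ k, g j k) - ∑ j, g j j) := by
    rw [← double_sum g, ← Finset.sum_neg_distrib]
    exact Finset.sum_le_sum fun p _ => hpair p
  have hL : L A = tr S - tr M := by
    simp only [L, ← hQ, ← hSdef, hM, tr_sum]
  rw [hL]
  linarith

end main

end Pool.Agent.Results.MP_ebd556_mp.TraceIneq
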